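import Mathlib.NumberTheory.Chebyshev
import Mathlib.NumberTheory.PrimeCounting
import Mathlib.Analysis.SpecialFunctions.Log.Basic
import Mathlib.Analysis.Complex.ExponentialBounds

set_option autoImplicit false

/-!
`MP_12f8bf_nt`: the upper bound `p_N ≤ 45 N log N` (written by helper34 for `MP_65453a_nt`).
-/

namespace Pool.Agent.MP12f8bf

open Finset

/-- the `j`-th prime, `P 1 = 2` -/
noncomputable def P (j : ℕ) : ℕ := Nat.nth Nat.Prime (j - 1)

lemma P_prime (j : ℕ) : (P j).Prime := Nat.prime_nth_prime _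

lemma P_lt {i j : ℕ} (hi : 1 ≤ i) (h : i < j) : P i < P j :=
  Nat.nth_strictMono Nat.infinite_setOfPred_prime (by omega)

lemma P_le {i j : ℕ} (h : i ≤ j) : P i ≤ P j :=
  Nat.nth_monotone Nat.infinite_setOfPred_prime (by omega)

lemma primeCounting_P {N : ℕ} (hN : 1 ≤ N) : Nat.primeCounting (P N) = N := by
  unfold P Nat.primeCounting Nat.primeCounting'
  rw [Nat.count_succ, Nat.count_nth_of_infinite Nat.infinite_setOfPred_prime,
    if_pos (Nat.prime_nth_prime _)]
  omega

lemma le_P {N : ℕ} : N ≤ P N := by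
  have : ∀ j, j + 2 ≤ Nat.nth Nat.Prime j := by
    intro j
    induction j with
    | zero => rw [Nat.nth_prime_zero_eq_two]
    | succ n ih =>
      have h : Nat.nth Nat.Prime n < Nat.nth Nat.Prime (n + 1) :=
        Nat.nth_strictMono Nat.infinite_setOfPred_prime (Nat.lt_succ_self n)
      omega
  have h := this (N - 1)
  unfold P
  omega

theorem P_upper {N : ℕ} (hN : 2 ≤ N) : (P N : ℝ) ≤ 45 * N * Real.log N := by
  set q := P N with hq
  have hqN : N ≤ q := le_P
  have hq2 : 2 ≤ q := hN.trans hqN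
  have hqr : (2 : ℝ) ≤ q := by exact_mod_cast hq2
  have hNr : (2 : ℝ) ≤ N := by exact_mod_cast hN
  have hlogq : 0 < Real.log q := Real.log_pos (by linarith)
  have hlogN : 0 < Real.log N := Real.log_pos (by linarith)
  have h1 := Chebyshev.pi_ge q
  rw [hq, primeCounting_P (by omega), ← hq, div_le_iff₀ hlogq] at h1
  have h2 : Real.log ((q : ℝ) + 1) ≤ 2 * Real.log q := by
    have : (q : ℝ) + 1 ≤ (q : ℝ) ^ 2 := by nlinarith
    calc Real.log ((q : ℝ) + 1) ≤ Real.log ((q : ℝ) ^ 2) :=
          Real.log_le_log (by linarith) this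
      _ = 2 * Real.log q := by rw [Real.log_pow]; norm_num
  have hl2 : (0.6931 : ℝ) < Real.log 2 := by
    have := Real.log_two_gt_d9; linarith
  -- q ≤ 5 N log q
  have h3 : (q : ℝ) * Real.log 2 ≤ 2 * (N * Real.log q) := by
    have : 2 * Real.log q ≤ N * Real.log q := by nlinarith
    linarith
  have h4 : (q : ℝ) ≤ 3 * N * Real.log q := by
    have hpos : 0 < (N : ℝ) * Real.log q := by positivity
    nlinarith
  have hsq : 0 < Real.sqrt q := Real.sqrt_pos.2 (by linarith)
  have h5 : Real.log q ≤ 2 * Real.sqrt q := by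
    have e1 : Real.log q = 2 * Real.log (Real.sqrt q) := by
      rw [Real.log_sqrt (by linarith)]; ring
    have := Real.log_le_sub_one_of_pos hsq
    linarith
  have h6 : Real.sqrt q ≤ 6 * N := by
    have e2 : Real.sqrt q * Real.sqrt q = q := Real.mul_self_sqrt (by linarith)
    have e3 : (q : ℝ) ≤ 3 * N * (2 * Real.sqrt q) :=
      h4.trans (mul_le_mul_of_nonneg_left h5 (by positivity))
    by_contra hcon
    push Not at hcon
    nlinarith
  have h7 : (q : ℝ) ≤ (N : ℝ) ^ 8 := by
    have e2 : Real.sqrt q * Real.sqrt q = q := Real.mul_self_sqrt (by linarith)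
    have e4 : (q : ℝ) ≤ (6 * N) ^ 2 := by nlinarith
    have e5 : (64 : ℝ) ≤ (N : ℝ) ^ 6 := by
      calc (64 : ℝ) = 2 ^ 6 := by norm_num
        _ ≤ (N : ℝ) ^ 6 := by gcongr
    calc (q : ℝ) ≤ (6 * N) ^ 2 := e4
      _ = 36 * (N : ℝ) ^ 2 := by ring
      _ ≤ (N : ℝ) ^ 6 * (N : ℝ) ^ 2 := by
        apply mul_le_mul_of_nonneg_right _ (by positivity)
        linarith
      _ = (N : ℝ) ^ 8 := by ring
  have h8 : Real.log q ≤ 8 * Real.log N := by
    calc Real.log q ≤ Real.log ((N : ℝ) ^ 8) := Real.log_le_log (by linarith) h7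
      _ = 8 * Real.log N := by rw [Real.log_pow]; norm_num
  calc (q : ℝ) ≤ 3 * N * Real.log q := h4
    _ ≤ 3 * N * (8 * Real.log N) := mul_le_mul_of_nonneg_left h8 (by positivity)
    _ ≤ 45 * N * Real.log N := by
      have : 0 < (N : ℝ) * Real.log N := by positivity
      nlinarith

end Pool.Agent.MP12f8bf
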