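import Pool.Agent.Lib.MP_12f8bf_nt.Sieve

set_option autoImplicit false

/-!
`MP_12f8bf_nt`: at most `C X / (log X)^2` primes `q ≤ X` with `(s q)^2 + (t a)^2` prime.
-/

namespace Pool.Agent.MP12f8bf

open Finset
open Pool.Agent.Lib.MP_0da313_nt Pool.Agent.BVall
open Pool.Agent.MPbca (om sieve_upper sum_inv_prime_ge)

theorem W_bound : ∃ M : ℝ, 0 < M ∧ ∀ (s t a n : ℕ), ST s t → a.Prime → (s = 2 → a % 2 = 1) →
    W (fun p => (om (Q s t a) p : ℝ) / p) (PK 3 n) ≤
      M / (Real.log ((2 ^ (2 ^ (3 + n)) : ℕ) : ℝ)) ^ 2 := by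
  classical
  obtain ⟨K, hK⟩ := R_lower
  refine ⟨Real.exp (2 * K + 4), Real.exp_pos _, ?_⟩
  intro s t a n hst ha ha2
  set N : ℕ := 2 ^ (2 ^ (3 + n)) with hN
  have hN2 : 2 ≤ N := by
    rw [hN]
    calc 2 = 2 ^ 1 := rfl
      _ ≤ _ := Nat.pow_le_pow_right (by norm_num) Nat.one_le_two_pow
  have hPK : (PK 3 n) = (Icc 1 N).filter Nat.Prime := by
    ext p
    rw [mem_PK, mem_filter, mem_Icc, ← hN]
    constructor
    · rintro ⟨h1, h2⟩
      exact ⟨⟨h1.one_le, h2⟩, h1⟩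
    · rintro ⟨h1, h2⟩
      exact ⟨h2, h1.2⟩
  have hlogN : 0 < Real.log (N : ℝ) := Real.log_pos (by exact_mod_cast hN2)
  set F := (Icc 1 N).filter (fun p => p.Prime ∧ p % 4 = 1) with hF
  have hFR : R N ≤ ∑ p ∈ F.erase a, (1 : ℝ) / p + 1 := by
    unfold R
    rw [← hF]
    by_cases hmem : a ∈ F
    · rw [← Finset.add_sum_erase F _ hmem]
      have ha1 : (1 : ℝ) ≤ a := by exact_mod_cast ha.one_le
      have : (1 : ℝ) / a ≤ 1 := by rw [div_le_one (by linarith)]; exact ha1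
      linarith
    · rw [Finset.erase_eq_of_notMem hmem]
      linarith
  have hsum : ∑ p ∈ PK 3 n, (1 : ℝ) / p + 2 * ∑ p ∈ F.erase a, (1 : ℝ) / p ≤
      ∑ p ∈ PK 3 n, (om (Q s t a) p : ℝ) / p := by
    have hsub : F.erase a ⊆ PK 3 n := by
      intro p hp
      rw [hPK, mem_filter]
      have h1 := (mem_filter.1 (mem_of_mem_erase hp))
      exact ⟨h1.1, h1.2.1⟩
    have h1 : ∑ p ∈ F.erase a, (2 : ℝ) / p ≤
        ∑ p ∈ F.erase a, ((om (Q s t a) p : ℝ) / p - 1 / p) := by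
      apply Finset.sum_le_sum
      intro p hp
      have h2 := (mem_filter.1 (mem_of_mem_erase hp))
      have h3 := three_le_om hst ha h2.2.1 h2.2.2 (ne_of_mem_erase hp)
      have h4 : (3 : ℝ) ≤ om (Q s t a) p := by exact_mod_cast h3
      have hp0 : (0 : ℝ) < p := by exact_mod_cast h2.2.1.pos
      rw [← sub_div]
      exact div_le_div_of_nonneg_right (by linarith) hp0.le
    have h2 : ∑ p ∈ F.erase a, ((om (Q s t a) p : ℝ) / p - 1 / p) ≤
        ∑ p ∈ PK 3 n, ((om (Q s t a) p : ℝ) / p - 1 / p) := by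
      apply Finset.sum_le_sum_of_subset_of_nonneg hsub
      intro p hp _
      have hpp := (mem_PK.1 hp).1
      have h4 : (1 : ℝ) ≤ om (Q s t a) p := by exact_mod_cast one_le_om (s := s) (t := t) (a := a) hpp
      have hp0 : (0 : ℝ) < p := by exact_mod_cast hpp.pos
      rw [← sub_div]
      exact div_nonneg (by linarith) hp0.le
    rw [Finset.sum_sub_distrib] at h1
    rw [Finset.sum_sub_distrib, Finset.sum_sub_distrib] at h2
    have h3 : ∑ p ∈ F.erase a, (2 : ℝ) / p = 2 * ∑ p ∈ F.erase a, (1 : ℝ) / p := by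
      rw [Finset.mul_sum]
      apply Finset.sum_congr rfl
      intro p _
      ring
    linarith
  have hmer := sum_inv_prime_ge N hN2
  rw [← hPK] at hmer
  have hR := hK N hN2
  have hW : W (fun p => (om (Q s t a) p : ℝ) / p) (PK 3 n) ≤
      Real.exp (- ∑ p ∈ PK 3 n, (om (Q s t a) p : ℝ) / p) := by
    unfold W
    rw [← Finset.sum_neg_distrib, Real.exp_sum]
    apply Finset.prod_le_prod
    · intro p hp
      have hpp := (mem_PK.1 hp).1
      have hp0 : (0 : ℝ) < p := by exact_mod_cast hpp.pos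
      have : (om (Q s t a) p : ℝ) / p ≤ 1 := by
        rw [div_le_one hp0]
        exact_mod_cast (om_lt hst ha2 hpp).le
      linarith
    · intro p _
      have := Real.add_one_le_exp (-((om (Q s t a) p : ℝ) / p))
      linarith
  refine hW.trans ?_
  have h8 : Real.exp (- ∑ p ∈ PK 3 n, (om (Q s t a) p : ℝ) / p) ≤
      Real.exp (2 * K + 4 - 2 * Real.log (Real.log N)) := by
    apply Real.exp_le_exp.2
    linarith
  refine h8.trans (le_of_eq ?_)
  rw [Real.exp_sub]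
  congr 1
  rw [two_mul, Real.exp_add, Real.exp_log hlogN, pow_two]

/-- the primes `q ≤ X` with `(s q)^2 + (t a)^2` prime -/
def SA (s t a X : ℕ) : Finset ℕ :=
  (Icc 1 X).filter (fun q => q.Prime ∧ ((s * q) ^ 2 + (t * a) ^ 2).Prime)

lemma mem_SA {s t a X q : ℕ} : q ∈ SA s t a X ↔
    q ∈ Icc 1 X ∧ q.Prime ∧ ((s * q) ^ 2 + (t * a) ^ 2).Prime := by
  unfold SA
  rw [mem_filter]

lemma sq_log_le {x : ℝ} (hx : 1 ≤ x) : (Real.log x) ^ 2 ≤ 16 * Real.sqrt x := by
  have hx0 : 0 < x := by linarith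
  have hs : 0 < Real.sqrt x := Real.sqrt_pos.2 hx0
  have hss : 0 < Real.sqrt (Real.sqrt x) := Real.sqrt_pos.2 hs
  have h1 : Real.log x = 4 * Real.log (Real.sqrt (Real.sqrt x)) := by
    rw [Real.log_sqrt hs.le, Real.log_sqrt hx0.le]; ring
  have h2 : Real.log (Real.sqrt (Real.sqrt x)) ≤ Real.sqrt (Real.sqrt x) := by
    have := Real.log_le_sub_one_of_pos hss
    linarith
  have h0 : 0 ≤ Real.log x := Real.log_nonneg hx
  have h3 : Real.log x ≤ 4 * Real.sqrt (Real.sqrt x) := by rw [h1]; linarith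
  calc (Real.log x) ^ 2 ≤ (4 * Real.sqrt (Real.sqrt x)) ^ 2 := by gcongr
    _ = 16 * Real.sqrt x := by rw [mul_pow, Real.sq_sqrt hs.le]; norm_num

/-- the sieve bound for sets without small excluded classes -/
theorem sifted_bound : ∃ C : ℝ, 0 < C ∧ ∃ X0 : ℕ, ∀ X : ℕ, X0 ≤ X → ∀ s t a : ℕ, ST s t →
    a.Prime → (s = 2 → a % 2 = 1) → ∀ S : Finset ℕ, S ⊆ Icc 1 X →
    (∀ x ∈ S, ∀ p, p.Prime → p ^ 2 ≤ X → ¬ Q s t a p x) →
    (S.card : ℝ) ≤ C * (X / (Real.log X) ^ 2) := by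
  classical
  obtain ⟨M, hM, hW⟩ := W_bound
  obtain ⟨X₀, hX₀⟩ := choose_level 3 (by norm_num)
  obtain ⟨C0, hC0⟩ : ∃ C0 : ℕ, ∀ n, lev 3 n = C0 * 2 ^ (2 ^ (3 + n) * (16 * 3 + 6)) :=
    ⟨_, fun n => rfl⟩
  obtain ⟨C1, hC1pos, hC1⟩ : ∃ C1 : ℝ, 0 < C1 ∧
      ∀ u v : ℝ, 0 ≤ u → u ≤ 384 * v → u ^ 2 ≤ C1 * v ^ 2 := by
    refine ⟨384 ^ 2, by norm_num, fun u v hu h => ?_⟩
    calc u ^ 2 ≤ (384 * v) ^ 2 := by gcongr
      _ = 384 ^ 2 * v ^ 2 := by ring
  refine ⟨2 * M * C1 + (C0 : ℝ) ^ 2 * C1, by positivity, max X₀ 3, ?_⟩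
  intro X hX s t a hst ha ha2 S hS hSQ
  obtain ⟨n, hn1, hn2, hn3⟩ := hX₀ X (le_trans (le_max_left _ _) hX)
  have hX3 : 3 ≤ X := le_trans (le_max_right _ _) hX
  obtain ⟨z, hz⟩ : ∃ z : ℕ, z = 2 ^ (2 ^ (3 + n)) := ⟨_, rfl⟩
  have hz1 : 1 ≤ z := by rw [hz]; exact Nat.one_le_two_pow
  have hz2 : 2 ≤ z := by
    rw [hz]
    calc 2 = 2 ^ 1 := rfl
      _ ≤ _ := Nat.pow_le_pow_right (by norm_num) Nat.one_le_two_pow
  have hzX : z ^ (48 * 3 + 16) ≤ X := by
    refine le_trans (le_of_eq ?_) hn2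
    rw [hz, ← pow_mul, ← pow_mul]
    congr 1
    ring
  have hlev : lev 3 n = C0 * z ^ (16 * 3 + 6) := by
    rw [hC0 n, hz, ← pow_mul]
  have hz2X : z ^ 2 ≤ X := le_trans (Nat.pow_le_pow_right hz1 (by omega)) hzX
  have hsub : S ⊆ (Ico 1 (1 + X)).filter (fun x => ∀ p ∈ PK 3 n, ¬ Q s t a p x) := by
    intro x hx
    rw [mem_filter, mem_Ico]
    have h1 := mem_Icc.1 (hS hx)
    refine ⟨⟨h1.1, by omega⟩, fun p hp => ?_⟩
    rw [mem_PK, ← hz] at hp
    apply hSQ x hx p hp.1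
    refine le_trans (Nat.pow_le_pow_left hp.2 2) ?_
    exact hz2X
  have h1 : (S.card : ℝ) ≤ 2 * X * W (fun p => (om (Q s t a) p : ℝ) / p) (PK 3 n) +
      (lev 3 n : ℝ) ^ 2 := by
    refine le_trans ?_ (sieve_upper 3 n (Q s t a) (Q_mod s t a)
      (fun p hp => om_le_three hst ha2 hp) (fun p hp => om_lt hst ha2 hp) X)
    exact_mod_cast card_le_card hsub
  have h2 := hW s t a n hst ha ha2
  rw [← hz] at h2
  have hX0' : (0 : ℝ) < X := by
    have : 0 < X := by omega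
    exact_mod_cast this
  have hlogX : 0 < Real.log X := Real.log_pos (by
    have : 1 < X := by omega
    exact_mod_cast this)
  have hz0 : (0 : ℝ) < z := by exact_mod_cast hz1
  have hlogz : 0 < Real.log z := Real.log_pos (by exact_mod_cast hz2)
  have hll : Real.log X ≤ 384 * Real.log z := by
    have h3 : (X : ℝ) ≤ (z : ℝ) ^ 384 := by
      have : X ≤ z ^ 384 := by
        have h := hn3
        rw [← hz, show (128 * 3 : ℕ) = 384 from rfl] at h
        omega
      exact_mod_cast this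
    have h4 := Real.log_le_log hX0' h3
    rw [Real.log_pow] at h4
    push_cast at h4
    exact h4
  have hllK : (Real.log X) ^ 2 ≤ C1 * (Real.log z) ^ 2 := hC1 _ _ hlogX.le hll
  have hmain : 2 * (X : ℝ) * W (fun p => (om (Q s t a) p : ℝ) / p) (PK 3 n) ≤
      2 * M * C1 * (X / (Real.log X) ^ 2) := by
    have h5 : 1 / (Real.log z) ^ 2 ≤ C1 / (Real.log X) ^ 2 := by
      rw [div_le_div_iff₀ (by positivity) (by positivity), one_mul]
      exact hllK
    calc 2 * (X : ℝ) * W (fun p => (om (Q s t a) p : ℝ) / p) (PK 3 n)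
        ≤ 2 * X * (M / (Real.log z) ^ 2) := mul_le_mul_of_nonneg_left h2 (by positivity)
      _ = 2 * X * M * (1 / (Real.log z) ^ 2) := by ring
      _ ≤ 2 * X * M * (C1 / (Real.log X) ^ 2) := mul_le_mul_of_nonneg_left h5 (by positivity)
      _ = _ := by ring
  have herr : (lev 3 n : ℝ) ^ 2 ≤ (C0 : ℝ) ^ 2 * C1 * (X / (Real.log X) ^ 2) := by
    rw [← mul_div_assoc, le_div_iff₀ (by positivity), hlev]
    push_cast
    have h7 : (Real.log X) ^ 2 ≤ C1 * (z : ℝ) ^ 2 := by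
      refine hllK.trans (mul_le_mul_of_nonneg_left ?_ hC1pos.le)
      exact pow_le_pow_left₀ hlogz.le (by
        have := Real.log_le_sub_one_of_pos hz0
        linarith) 2
    have h8 : ((z : ℝ) ^ (16 * 3 + 6)) ^ 2 * (z : ℝ) ^ 2 ≤ X := by
      have h9 : (z ^ (16 * 3 + 6)) ^ 2 * z ^ 2 ≤ X := by
        refine le_trans ?_ hzX
        rw [← pow_mul, ← pow_add]
        apply Nat.pow_le_pow_right hz1
        omega
      exact_mod_cast h9
    calc ((C0 : ℝ) * (z : ℝ) ^ (16 * 3 + 6)) ^ 2 * (Real.log X) ^ 2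
        ≤ ((C0 : ℝ) * (z : ℝ) ^ (16 * 3 + 6)) ^ 2 * (C1 * (z : ℝ) ^ 2) :=
          mul_le_mul_of_nonneg_left h7 (by positivity)
      _ = (C0 : ℝ) ^ 2 * C1 * (((z : ℝ) ^ (16 * 3 + 6)) ^ 2 * (z : ℝ) ^ 2) := by ring
      _ ≤ _ := mul_le_mul_of_nonneg_left h8 (by positivity)
  calc (S.card : ℝ) ≤ _ := h1
    _ ≤ 2 * M * C1 * (X / (Real.log X) ^ 2) + (C0 : ℝ) ^ 2 * C1 * (X / (Real.log X) ^ 2) :=
        add_le_add hmain herr
    _ = (2 * M * C1 + (C0 : ℝ) ^ 2 * C1) * (X / (Real.log X) ^ 2) := by ring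

theorem SA_bound : ∃ C : ℝ, 0 < C ∧ ∀ X : ℕ, 2 ≤ X → ∀ s t a : ℕ, ST s t → a.Prime →
    ((SA s t a X).card : ℝ) ≤ C * (X / (Real.log X) ^ 2) := by
  classical
  obtain ⟨C, hC, X0, hX0⟩ := sifted_bound
  refine ⟨16 + 16 * X0 + C, by positivity, ?_⟩
  intro X hX s t a hst ha
  have hXr : (2 : ℝ) ≤ X := by exact_mod_cast hX
  have hlog : 0 < Real.log X := Real.log_pos (by linarith)
  have hXpos : (0 : ℝ) < X := by linarith
  have hsq : Real.sqrt X ≤ 16 * (X / (Real.log X) ^ 2) := by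
    rw [mul_div_assoc', le_div_iff₀ (by positivity)]
    have h1 := sq_log_le (x := X) (by linarith)
    have h2 : Real.sqrt X * Real.sqrt X = X := Real.mul_self_sqrt hXpos.le
    calc Real.sqrt X * (Real.log X) ^ 2 ≤ Real.sqrt X * (16 * Real.sqrt X) := by gcongr
      _ = 16 * X := by rw [← h2]; ring_nf; rw [Real.sqrt_sq (by positivity)]
  have hsq1 : (1 : ℝ) ≤ Real.sqrt X := by
    rw [Real.one_le_sqrt]; linarith
  have hone : (1 : ℝ) ≤ 16 * (X / (Real.log X) ^ 2) := hsq1.trans hsq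
  have hquo : 0 ≤ X / (Real.log X) ^ 2 := by positivity
  have hs1 : 1 ≤ s := by rcases hst with ⟨rfl, -⟩ | ⟨rfl, -⟩ <;> norm_num
  by_cases hcase : s = 2 ∧ a = 2
  · -- empty
    obtain ⟨rfl, rfl⟩ := hcase
    have ht : t = 1 := by
      rcases hst with ⟨h, -⟩ | ⟨-, h⟩
      · omega
      · exact h
    subst ht
    have hempty : SA 2 1 2 X = ∅ := by
      rw [Finset.eq_empty_iff_forall_notMem]
      intro x hx
      obtain ⟨-, hxp, hr⟩ := mem_SA.1 hx
      have e : (2 * x) ^ 2 + (1 * 2) ^ 2 = 4 * (x ^ 2 + 1) := by ring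
      rw [e] at hr
      exact Nat.not_prime_mul (by norm_num) (by
        have := hxp.two_le
        nlinarith) hr
    rw [hempty]
    simp only [card_empty, Nat.cast_zero]
    positivity
  have ha2 : s = 2 → a % 2 = 1 := by
    intro h2
    rcases ha.eq_two_or_odd with h | h
    · exact absurd ⟨h2, h⟩ hcase
    · exact h
  rcases Nat.lt_or_ge X X0 with hXX | hXX
  · have hcard : (SA s t a X).card ≤ X := by
      have : SA s t a X ⊆ Icc 1 X := fun x hx => (mem_SA.1 hx).1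
      simpa using card_le_card this
    calc ((SA s t a X).card : ℝ) ≤ X := by exact_mod_cast hcard
      _ ≤ X0 := by exact_mod_cast hXX.le
      _ = X0 * 1 := by ring
      _ ≤ X0 * (16 * (X / (Real.log X) ^ 2)) := by gcongr
      _ = (16 * X0) * (X / (Real.log X) ^ 2) := by ring
      _ ≤ _ := by
        apply mul_le_mul_of_nonneg_right _ hquo
        linarith
  · set S1 := (SA s t a X).filter (fun q => q ^ 2 ≤ X) with hS1
    set S2 := (SA s t a X).filter (fun q => ¬ q ^ 2 ≤ X) with hS2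
    have hsplit : (SA s t a X).card = S1.card + S2.card := by
      rw [hS1, hS2]
      exact (card_filter_add_card_filter_not _).symm
    have h1 : (S1.card : ℝ) ≤ Real.sqrt X := by
      have hsub : S1 ⊆ Icc 1 (Nat.sqrt X) := by
        intro x hx
        rw [hS1, mem_filter] at hx
        have := mem_Icc.1 (mem_SA.1 hx.1).1
        rw [mem_Icc]
        exact ⟨this.1, Nat.le_sqrt'.2 hx.2⟩
      have hc : S1.card ≤ Nat.sqrt X := by simpa using card_le_card hsub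
      calc (S1.card : ℝ) ≤ Nat.sqrt X := by exact_mod_cast hc
        _ ≤ Real.sqrt X := Real.nat_sqrt_le_real_sqrt
    have h2 : (S2.card : ℝ) ≤ C * (X / (Real.log X) ^ 2) := by
      refine hX0 X hXX s t a hst ha ha2 S2 ?_ ?_
      · intro x hx
        rw [hS2, mem_filter] at hx
        exact (mem_SA.1 hx.1).1
      · intro x hx p hp hpX hQ
        rw [hS2, mem_filter] at hx
        obtain ⟨-, hxp, hr⟩ := mem_SA.1 hx.1
        rcases hQ with h | h
        · have hd : p ∣ x := Nat.dvd_of_mod_eq_zero h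
          have : p = x := (Nat.prime_dvd_prime_iff_eq hp hxp).1 hd
          subst this
          exact hx.2 hpX
        · have hd := Nat.dvd_of_mod_eq_zero h
          have hpr : p = (s * x) ^ 2 + (t * a) ^ 2 := (Nat.prime_dvd_prime_iff_eq hp hr).1 hd
          apply hx.2
          have h3 : x ^ 2 ≤ (s * x) ^ 2 := Nat.pow_le_pow_left (Nat.le_mul_of_pos_left x hs1) 2
          have h4 : p ≤ p ^ 2 := Nat.le_self_pow (by norm_num) p
          omega
    rw [hsplit]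
    push_cast
    have h5 : 0 ≤ 16 * (X0 : ℝ) * (X / (Real.log X) ^ 2) := by positivity
    calc (S1.card : ℝ) + S2.card ≤ 16 * (X / (Real.log X) ^ 2) +
          C * (X / (Real.log X) ^ 2) := add_le_add (h1.trans hsq) h2
      _ ≤ (16 + 16 * X0 + C) * (X / (Real.log X) ^ 2) := by
        nlinarith [h5]

end Pool.Agent.MP12f8bf
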