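import Mathlib
import Pool.Agent.Lib.MP_0016c7_nt.RosInert
import Pool.Agent.Lib.MP_bca3e5_nt.Gf3

set_option autoImplicit false

/-!
`MP_12f8bf_nt`: `∑ 1/p ≥ (1/2) log log z - C` over the primes `p ≤ z`, `p = 1 mod 4`.
-/

namespace Pool.Agent.MP12f8bf

open Finset ArithmeticFunction
open Pool.Agent.MP0016c7 Pool.Agent.MP0016c7.Ros

/-- the character modulo 4 -/
noncomputable def chi : DirichletCharacter ℂ 4 := ZMod.χ₄.ringHomComp (Int.castRingHom ℂ)

lemma chi_apply (a : ZMod 4) : chi a = ((ZMod.χ₄ a : ℤ) : ℂ) := rfl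

lemma chi_sq : chi ^ 2 = 1 :=
  MulChar.isQuadratic_iff_sq_eq_one.mp ((ZMod.isQuadratic_χ₄).comp _)

lemma chi_ne : chi ≠ 1 := by
  intro h
  have h1 : chi (3 : ZMod 4) = (1 : DirichletCharacter ℂ 4) (3 : ZMod 4) := by rw [h]
  have h2 : IsUnit (3 : ZMod 4) := by decide
  rw [MulChar.one_apply h2, chi_apply] at h1
  have h3 : ZMod.χ₄ (3 : ZMod 4) = -1 := by decide
  rw [h3] at h1
  norm_num at h1

lemma rchar_chi {p : ℕ} (hp : p.Prime) : rchar chi p = -1 ↔ p % 4 = 3 := by
  rw [rchar_apply _ hp.ne_zero, chi_apply, ZMod.χ₄_nat_eq_if_mod_four]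
  split_ifs with h1 h2
  · simp only [Int.cast_zero, Complex.zero_re]
    constructor
    · intro h; norm_num at h
    · intro h; omega
  · simp only [Int.cast_one, Complex.one_re]
    constructor
    · intro h; norm_num at h
    · intro h; omega
  · simp only [Int.cast_neg, Int.cast_one, Complex.neg_re, Complex.one_re, true_iff]
    omega

lemma sum_union_le {s t : Finset ℕ} {f : ℕ → ℝ} (hf : ∀ x, 0 ≤ f x) :
    ∑ x ∈ s ∪ t, f x ≤ ∑ x ∈ s, f x + ∑ x ∈ t, f x := by
  have h1 := Finset.sum_union_inter (s₁ := s) (s₂ := t) (f := f)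
  have h2 : 0 ≤ ∑ x ∈ s ∩ t, f x := Finset.sum_nonneg fun x _ => hf x
  linarith

/-- primes `= 3 mod 4` -/
theorem inert_upper : ∃ B : ℝ, ∀ z : ℕ, 1 ≤ z →
    ∑ p ∈ (Icc 1 z).filter (fun p => p.Prime ∧ p % 4 = 3), Real.log p / p ≤
      1 / 2 * Real.log z + B := by
  obtain ⟨B, hB⟩ := mertens_twist chi chi_sq chi_ne (T := 0) le_rfl
  refine ⟨B, fun z hz => ?_⟩
  have hz0 : (0 : ℝ) < z := by exact_mod_cast hz
  have hlog : 0 ≤ Real.log z := Real.log_nonneg (by exact_mod_cast hz)
  have h := hB 0 (Real.log z) (by simp) hlog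
  have hset : iP chi (Real.log z) = (Icc 1 z).filter (fun p => p.Prime ∧ p % 4 = 3) := by
    ext p
    rw [mem_iP, mem_filter, mem_Icc]
    constructor
    · rintro ⟨h1, h2, h3⟩
      have hp0 : (0 : ℝ) < p := by exact_mod_cast h1.pos
      refine ⟨⟨h1.one_le, ?_⟩, h1, (rchar_chi h1).1 h2⟩
      exact_mod_cast (Real.log_le_log_iff hp0 hz0).1 h3
    · rintro ⟨⟨h1, h2⟩, h3, h4⟩
      refine ⟨h3, (rchar_chi h3).2 h4, ?_⟩
      exact Real.log_le_log (by exact_mod_cast h3.pos) (by exact_mod_cast h2)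
  rw [hset] at h
  have h1 : (∑ p ∈ (Icc 1 z).filter (fun p => p.Prime ∧ p % 4 = 3),
      ((Real.log p / p : ℝ) : ℂ) * ex (-(0 * Real.log p))) -
      (1 / 2 : ℝ) * ∫ w in (0 : ℝ)..Real.log z, ex (-(0 * w)) =
      (((∑ p ∈ (Icc 1 z).filter (fun p => p.Prime ∧ p % 4 = 3), Real.log p / p) -
        1 / 2 * Real.log z : ℝ) : ℂ) := by
    have e1 : ∀ x : ℝ, ex (-(0 * x)) = 1 := by intro x; simp
    simp only [e1, mul_one, intervalIntegral.integral_const, sub_zero]
    push_cast
    simp
  rw [h1, Complex.norm_real, Real.norm_eq_abs] at h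
  have := (abs_le.1 h).2
  linarith

/-- all primes -/
theorem all_lower : ∃ B : ℝ, ∀ z : ℕ, 1 ≤ z →
    Real.log z - B ≤ ∑ p ∈ (Icc 1 z).filter (fun p => p.Prime), Real.log p / p := by
  refine ⟨1 + ∑' n, npL n, fun z hz => ?_⟩
  have h1 := Pool.Agent.MPbca.mertens_lower z hz
  have h2 : ∑ d ∈ Icc 1 z, vonMangoldt d / (d : ℝ) =
      ∑ p ∈ (Icc 1 z).filter (fun p => p.Prime), Real.log p / p +
      ∑ d ∈ (Icc 1 z).filter (fun p => ¬ p.Prime), vonMangoldt d / (d : ℝ) := by
    rw [← Finset.sum_filter_add_sum_filter_not (Icc 1 z) (fun n => n.Prime)]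
    congr 1
    apply Finset.sum_congr rfl
    intro p hp
    rw [mem_filter] at hp
    rw [vonMangoldt_apply_prime hp.2]
  have h3 : ∑ d ∈ (Icc 1 z).filter (fun p => ¬ p.Prime), vonMangoldt d / (d : ℝ) ≤
      ∑' n, npL n := by
    refine le_trans (Finset.sum_le_sum (g := npL) ?_)
      (summable_npL.sum_le_tsum _ fun n _ => npL_nonneg n)
    intro n hn
    rw [mem_filter] at hn
    unfold npL
    rw [if_neg hn.2]
  linarith

/-- the weighted sum over primes `= 1 mod 4` -/
noncomputable def A (z : ℕ) : ℝ :=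
  ∑ p ∈ (Icc 1 z).filter (fun p => p.Prime ∧ p % 4 = 1), Real.log p / p

/-- the sum of reciprocals -/
noncomputable def R (z : ℕ) : ℝ :=
  ∑ p ∈ (Icc 1 z).filter (fun p => p.Prime ∧ p % 4 = 1), (1 : ℝ) / p

theorem A_lower : ∃ C : ℝ, ∀ z : ℕ, 1 ≤ z → 1 / 2 * Real.log z - C ≤ A z := by
  obtain ⟨B, hB⟩ := inert_upper
  obtain ⟨B', hB'⟩ := all_lower
  refine ⟨B + B' + Real.log 2, fun z hz => ?_⟩
  have h1 := hB z hz
  have h2 := hB' z hz
  have hsplit : (Icc 1 z).filter (fun p => p.Prime) ⊆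
      ((Icc 1 z).filter (fun p => p.Prime ∧ p % 4 = 1) ∪
        (Icc 1 z).filter (fun p => p.Prime ∧ p % 4 = 3)) ∪ {2} := by
    intro p hp
    rw [mem_filter] at hp
    rw [mem_union, mem_union, mem_filter, mem_filter, mem_singleton]
    rcases hp.2.eq_two_or_odd with h | h
    · right; exact h
    · left
      have : p % 4 = 1 ∨ p % 4 = 3 := by omega
      rcases this with h' | h'
      · left; exact ⟨hp.1, hp.2, h'⟩
      · right; exact ⟨hp.1, hp.2, h'⟩
  have hnn : ∀ p : ℕ, 0 ≤ Real.log p / p := fun p =>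
    div_nonneg (Real.log_natCast_nonneg p) (Nat.cast_nonneg p)
  have h3 : ∑ p ∈ (Icc 1 z).filter (fun p => p.Prime), Real.log p / p ≤
      A z + ∑ p ∈ (Icc 1 z).filter (fun p => p.Prime ∧ p % 4 = 3), Real.log p / p +
        Real.log 2 := by
    refine (Finset.sum_le_sum_of_subset_of_nonneg hsplit fun p _ _ => hnn p).trans ?_
    refine (sum_union_le hnn).trans ?_
    have h5 := sum_union_le (s := (Icc 1 z).filter (fun p => p.Prime ∧ p % 4 = 1))
      (t := (Icc 1 z).filter (fun p => p.Prime ∧ p % 4 = 3)) hnn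
    rw [Finset.sum_singleton]
    have h6 : Real.log ((2 : ℕ) : ℝ) / ((2 : ℕ) : ℝ) ≤ Real.log 2 := by
      have := Real.log_pos (show (1 : ℝ) < 2 by norm_num)
      push_cast
      linarith
    unfold A
    linarith
  linarith

lemma sum_filter_succ (f : ℕ → ℝ) (z : ℕ) :
    ∑ p ∈ (Icc 1 (z + 1)).filter (fun p => p.Prime ∧ p % 4 = 1), f p =
      ∑ p ∈ (Icc 1 z).filter (fun p => p.Prime ∧ p % 4 = 1), f p +
        (if (z + 1).Prime ∧ (z + 1) % 4 = 1 then f (z + 1) else 0) := by
  rw [Finset.sum_filter, Finset.sum_filter, Finset.sum_Icc_succ_top (by omega)]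

/-- the sum of the reciprocals of the primes `= 1 mod 4` -/
theorem R_lower : ∃ K : ℝ, ∀ z : ℕ, 2 ≤ z → 1 / 2 * Real.log (Real.log z) - K ≤ R z := by
  obtain ⟨C, hC⟩ := A_lower
  set K : ℝ := C / Real.log 2 + 1 / 2 * Real.log (Real.log 2) + 3 / 2 with hK
  have key : ∀ z : ℕ, 2 ≤ z →
      (A z + C) / Real.log z + 1 / 2 * Real.log (Real.log z) + 3 / z - K ≤ R z := by
    intro z hz
    induction z, hz using Nat.le_induction with
    | base =>
      have hA : A 2 = 0 := by
        unfold A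
        apply Finset.sum_eq_zero
        intro p hp
        rw [mem_filter, mem_Icc] at hp
        obtain ⟨⟨h1, h2⟩, h3, h4⟩ := hp
        have h5 := h3.two_le
        exfalso; omega
      have hR : R 2 = 0 := by
        unfold R
        apply Finset.sum_eq_zero
        intro p hp
        rw [mem_filter, mem_Icc] at hp
        obtain ⟨⟨h1, h2⟩, h3, h4⟩ := hp
        have h5 := h3.two_le
        exfalso; omega
      rw [hA, hR, hK, zero_add]
      push_cast
      linarith
    | succ z hz ih =>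
      have hzr : (2 : ℝ) ≤ z := by exact_mod_cast hz
      have hz0 : (0 : ℝ) < z := by linarith
      set L := Real.log z with hL
      set L' := Real.log ((z + 1 : ℕ) : ℝ) with hL'
      have hl2 : (0.6931 : ℝ) < Real.log 2 := by
        have := Real.log_two_gt_d9; linarith
      have hL2 : Real.log 2 ≤ L := Real.log_le_log (by norm_num) hzr
      have hLL' : L ≤ L' := Real.log_le_log hz0 (by push_cast; linarith)
      have hLpos : 0 < L := by linarith
      have hL'pos : 0 < L' := by linarith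
      have hdiff : L' - L ≤ 1 / z := by
        rw [hL', hL, ← Real.log_div (by push_cast; positivity) hz0.ne']
        have h1 : ((z + 1 : ℕ) : ℝ) / z = 1 + 1 / z := by
          push_cast; field_simp
        rw [h1]
        have := Real.log_le_sub_one_of_pos (show (0 : ℝ) < 1 + 1 / z by positivity)
        linarith
      have hA1 := hC z (by omega)
      -- increments
      have hAs : A (z + 1) = A z +
          (if (z + 1).Prime ∧ (z + 1) % 4 = 1 then L' / ((z + 1 : ℕ) : ℝ) else 0) := by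
        unfold A
        exact sum_filter_succ (fun p => Real.log p / p) z
      have hRs : R (z + 1) = R z +
          (if (z + 1).Prime ∧ (z + 1) % 4 = 1 then (1 : ℝ) / ((z + 1 : ℕ) : ℝ) else 0) := by
        unfold R
        exact sum_filter_succ (fun p => (1 : ℝ) / p) z
      have hinc : (A (z + 1) + C) / L' = (A z + C) / L' + (R (z + 1) - R z) := by
        rw [hAs, hRs]
        split_ifs
        · field_simp
          ring
        · ring
      have hloglog : Real.log L' - Real.log L ≤ L' / L - 1 := by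
        rw [← Real.log_div hL'pos.ne' hLpos.ne']
        exact Real.log_le_sub_one_of_pos (by positivity)
      have h1 : (A z + C) * (1 / L - 1 / L') ≥ 1 / 2 * L * (1 / L - 1 / L') := by
        apply mul_le_mul_of_nonneg_right (by linarith)
        rw [sub_nonneg]
        exact one_div_le_one_div_of_le hLpos hLL'
      have h2 : 1 / 2 * L * (1 / L - 1 / L') = 1 / 2 * (1 - L / L') := by
        field_simp
      have h3 : (A z + C) / L - (A z + C) / L' = (A z + C) * (1 / L - 1 / L') := by ring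
      have h4 : 1 / 2 * (1 - L / L') - 1 / 2 * (L' / L - 1) =
          - (1 / 2 * ((L' - L) ^ 2 / (L * L'))) := by
        field_simp
        ring
      have h5 : (L' - L) ^ 2 / (L * L') ≤ (1 / z) ^ 2 / 0.48 := by
        apply div_le_div₀ (by positivity)
        · apply pow_le_pow_left₀ (by linarith) hdiff
        · norm_num
        · nlinarith
      have h6 : 1 / 2 * ((1 / (z : ℝ)) ^ 2 / 0.48) ≤ 3 / z - 3 / ((z + 1 : ℕ) : ℝ) := by
        push_cast
        rw [div_sub_div _ _ hz0.ne' (by positivity), div_pow, one_pow]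
        rw [div_div, mul_one_div, div_le_div_iff₀ (by positivity) (by positivity)]
        nlinarith
      have h7 := hinc
      push_cast at *
      linarith
  refine ⟨K, fun z hz => ?_⟩
  have h1 := key z hz
  have h2 := hC z (by omega)
  have hzr : (2 : ℝ) ≤ z := by exact_mod_cast hz
  have hL : 0 < Real.log z := Real.log_pos (by linarith)
  have h3 : 0 ≤ (A z + C) / Real.log z := div_nonneg (by linarith) hL.le
  have h4 : (0 : ℝ) ≤ 3 / z := by positivity
  linarith

end Pool.Agent.MP12f8bf
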