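import Pool.Agent.Lib.MP_12f8bf_nt.Count
import Pool.Agent.Lib.MP_12f8bf_nt.Cheb

set_option autoImplicit false

/-!
`MP_12f8bf_nt`: how large `min(k, n - k)` must be for almost all `n` if `p_k^2 + 4 p_{n-k}^2` is
prime.
-/

namespace Pool.Agent.MP12f8bf

open Finset Filter Topology

/-- `k` is a witness for `n`: `0 < k < n` and `p_k^2 + 4 p_{n-k}^2` is a prime -/
def Witness (n k : ℕ) : Prop := 0 < k ∧ k < n ∧ (P k ^ 2 + 4 * P (n - k) ^ 2).Prime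

/-- pairs `(n, k)` with `k` or `n - k` in a finite set `A` -/
theorem set_bound : ∃ C : ℝ, 0 < C ∧ ∀ (N : ℕ) (A : Finset ℕ), 2 ≤ N →
    {x : ℕ × ℕ | x.1 ≤ N ∧ (x.2 ∈ A ∨ x.1 - x.2 ∈ A) ∧ Witness x.1 x.2}.Finite ∧
    (({x : ℕ × ℕ | x.1 ≤ N ∧ (x.2 ∈ A ∨ x.1 - x.2 ∈ A) ∧ Witness x.1 x.2}.ncard : ℕ) : ℝ) ≤
      C * A.card * (N / Real.log N) := by
  classical
  obtain ⟨C, hC, hCb⟩ := SA_bound
  refine ⟨90 * C, by positivity, ?_⟩
  intro N A hN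
  have hNr : (2 : ℝ) ≤ N := by exact_mod_cast hN
  have hlogN : 0 < Real.log N := Real.log_pos (by linarith)
  set X := P N with hX
  have hNX : N ≤ X := le_P
  have hXr : (N : ℝ) ≤ X := by exact_mod_cast hNX
  have hlogX : Real.log N ≤ Real.log X := Real.log_le_log (by linarith) hXr
  have hlogX0 : 0 < Real.log X := lt_of_lt_of_le hlogN hlogX
  have hq : (X : ℝ) / (Real.log X) ^ 2 ≤ 45 * (N / Real.log N) := by
    have h1 : (X : ℝ) ≤ 45 * N * Real.log N := P_upper hN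
    have h2 : (Real.log N) ^ 2 ≤ (Real.log X) ^ 2 := by gcongr
    calc (X : ℝ) / (Real.log X) ^ 2 ≤ (45 * N * Real.log N) / (Real.log N) ^ 2 := by gcongr
      _ = 45 * (N / Real.log N) := by field_simp
  set S := {x : ℕ × ℕ | x.1 ≤ N ∧ (x.2 ∈ A ∨ x.1 - x.2 ∈ A) ∧ Witness x.1 x.2} with hS
  set S1 := {x : ℕ × ℕ | x.1 ≤ N ∧ x.2 ∈ A ∧ Witness x.1 x.2} with hS1
  set S2 := {x : ℕ × ℕ | x.1 ≤ N ∧ x.1 - x.2 ∈ A ∧ Witness x.1 x.2} with hS2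
  have hSS : S ⊆ S1 ∪ S2 := by
    rintro x ⟨h1, h2, h3⟩
    rcases h2 with h2 | h2
    · exact Or.inl ⟨h1, h2, h3⟩
    · exact Or.inr ⟨h1, h2, h3⟩
  set T1 : Finset (Σ _ : ℕ, ℕ) := A.sigma (fun k => SA 2 1 (P k) X) with hT1
  set T2 : Finset (Σ _ : ℕ, ℕ) := A.sigma (fun k => SA 1 2 (P k) X) with hT2
  have hcancel : ∀ {m m' : ℕ}, 1 ≤ m → 1 ≤ m' → P m = P m' → m = m' := by
    intro m m' h1 h1' h
    rcases lt_trichotomy m m' with hlt | heq | hgt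
    · exact absurd h (P_lt h1 hlt).ne
    · exact heq
    · exact absurd h (P_lt h1' hgt).ne'
  have hmap1 : ∀ x ∈ S1, (⟨x.2, P (x.1 - x.2)⟩ : Σ _ : ℕ, ℕ) ∈ (T1 : Set (Σ _ : ℕ, ℕ)) := by
    rintro ⟨n, k⟩ ⟨h1, h2, h3, h4, h5⟩
    simp only at h1 h2 h3 h4 h5 ⊢
    rw [hT1, mem_coe, mem_sigma]
    refine ⟨h2, ?_⟩
    rw [mem_SA]
    refine ⟨mem_Icc.2 ⟨(P_prime _).one_lt.le, P_le (by omega)⟩, P_prime _, ?_⟩
    have e : (2 * P (n - k)) ^ 2 + (1 * P k) ^ 2 = P k ^ 2 + 4 * P (n - k) ^ 2 := by ring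
    rw [e]
    exact h5
  have hinj1 : Set.InjOn (fun x : ℕ × ℕ => (⟨x.2, P (x.1 - x.2)⟩ : Σ _ : ℕ, ℕ)) S1 := by
    rintro ⟨n, k⟩ ⟨-, -, h3, h4, -⟩ ⟨n', k'⟩ ⟨-, -, h3', h4', -⟩ h
    simp only [Sigma.mk.injEq, heq_eq_eq] at h
    simp only at h3 h4 h3' h4'
    obtain ⟨rfl, h⟩ := h
    have h6 := hcancel (m := n - k) (m' := n' - k) (by omega) (by omega) h
    have hn : n = n' := by omega
    rw [hn]
  have hmap2 : ∀ x ∈ S2, (⟨x.1 - x.2, P x.2⟩ : Σ _ : ℕ, ℕ) ∈ (T2 : Set (Σ _ : ℕ, ℕ)) := by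
    rintro ⟨n, k⟩ ⟨h1, h2, h3, h4, h5⟩
    simp only at h1 h2 h3 h4 h5 ⊢
    rw [hT2, mem_coe, mem_sigma]
    refine ⟨h2, ?_⟩
    rw [mem_SA]
    refine ⟨mem_Icc.2 ⟨(P_prime _).one_lt.le, P_le (by omega)⟩, P_prime _, ?_⟩
    have e : (1 * P k) ^ 2 + (2 * P (n - k)) ^ 2 = P k ^ 2 + 4 * P (n - k) ^ 2 := by ring
    simp only
    rw [e]
    exact h5
  have hinj2 : Set.InjOn (fun x : ℕ × ℕ => (⟨x.1 - x.2, P x.2⟩ : Σ _ : ℕ, ℕ)) S2 := by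
    rintro ⟨n, k⟩ ⟨-, -, h3, h4, -⟩ ⟨n', k'⟩ ⟨-, -, h3', h4', -⟩ h
    simp only [Sigma.mk.injEq, heq_eq_eq] at h
    simp only at h3 h4 h3' h4'
    obtain ⟨h1, h2⟩ := h
    have h6 := hcancel (m := k) (m' := k') (by omega) (by omega) h2
    subst h6
    have hn : n = n' := by omega
    rw [hn]
  have hfin1 : S1.Finite := Set.Finite.of_injOn (fun x hx => hmap1 x hx) hinj1 T1.finite_toSet
  have hfin2 : S2.Finite := Set.Finite.of_injOn (fun x hx => hmap2 x hx) hinj2 T2.finite_toSet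
  have hfin : S.Finite := (hfin1.union hfin2).subset hSS
  refine ⟨hfin, ?_⟩
  have hcard1 : S1.ncard ≤ T1.card := by
    rw [← Set.ncard_coe_finset]
    exact Set.ncard_le_ncard_of_injOn _ hmap1 hinj1 T1.finite_toSet
  have hcard2 : S2.ncard ≤ T2.card := by
    rw [← Set.ncard_coe_finset]
    exact Set.ncard_le_ncard_of_injOn _ hmap2 hinj2 T2.finite_toSet
  have hcard : S.ncard ≤ T1.card + T2.card := by
    calc S.ncard ≤ (S1 ∪ S2).ncard := Set.ncard_le_ncard hSS (hfin1.union hfin2)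
      _ ≤ S1.ncard + S2.ncard := Set.ncard_union_le _ _
      _ ≤ _ := add_le_add hcard1 hcard2
  have hTc1 : (T1.card : ℝ) ≤ A.card * (C * (X / (Real.log X) ^ 2)) := by
    rw [hT1, card_sigma]
    push_cast
    calc ∑ k ∈ A, ((SA 2 1 (P k) X).card : ℝ) ≤ ∑ _k ∈ A, C * (X / (Real.log X) ^ 2) :=
          sum_le_sum fun k _ => hCb X (by omega) 2 1 (P k) (Or.inr ⟨rfl, rfl⟩) (P_prime k)
      _ = A.card * (C * (X / (Real.log X) ^ 2)) := by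
          rw [sum_const, nsmul_eq_mul]
  have hTc2 : (T2.card : ℝ) ≤ A.card * (C * (X / (Real.log X) ^ 2)) := by
    rw [hT2, card_sigma]
    push_cast
    calc ∑ k ∈ A, ((SA 1 2 (P k) X).card : ℝ) ≤ ∑ _k ∈ A, C * (X / (Real.log X) ^ 2) :=
          sum_le_sum fun k _ => hCb X (by omega) 1 2 (P k) (Or.inl ⟨rfl, rfl⟩) (P_prime k)
      _ = A.card * (C * (X / (Real.log X) ^ 2)) := by
          rw [sum_const, nsmul_eq_mul]
  calc ((S.ncard : ℕ) : ℝ) ≤ T1.card + T2.card := by exact_mod_cast hcard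
    _ ≤ A.card * (C * (X / (Real.log X) ^ 2)) + A.card * (C * (X / (Real.log X) ^ 2)) :=
        add_le_add hTc1 hTc2
    _ = 2 * (A.card * (C * (X / (Real.log X) ^ 2))) := by ring
    _ ≤ 2 * (A.card * (C * (45 * (N / Real.log N)))) := by gcongr
    _ = 90 * C * A.card * (N / Real.log N) := by ring

end Pool.Agent.MP12f8bf
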