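import Pool.Agent.Lib.MP_bca3e5_nt.Up
import Pool.Agent.Lib.MP_12f8bf_nt.MertensFour

set_option autoImplicit false

/-!
`MP_12f8bf_nt`: primes `q ≤ X` for which `(s q)^2 + (t a)^2` is prime, `{s, t} = {1, 2}`, uniformly
in the prime `a`.
-/

namespace Pool.Agent.MP12f8bf

open Finset
open Pool.Agent.Lib.MP_0da313_nt Pool.Agent.BVall
open Pool.Agent.MPbca (om)

/-- the excluded classes -/
def Q (s t a : ℕ) (p x : ℕ) : Prop := x % p = 0 ∨ ((s * x) ^ 2 + (t * a) ^ 2) % p = 0

instance (s t a p : ℕ) : DecidablePred (Q s t a p) := fun x => by unfold Q; infer_instance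

lemma Q_mod (s t a p x : ℕ) : Q s t a p (x % p) ↔ Q s t a p x := by
  unfold Q
  rw [Nat.mod_mod]
  have h : ((s * (x % p)) ^ 2 + (t * a) ^ 2) ≡ ((s * x) ^ 2 + (t * a) ^ 2) [MOD p] :=
    Nat.ModEq.add_right _ (Nat.ModEq.pow 2 (Nat.ModEq.mul_left s (Nat.mod_modEq x p)))
  unfold Nat.ModEq at h
  rw [h]

/-- the two cases -/
def ST (s t : ℕ) : Prop := (s = 1 ∧ t = 2) ∨ (s = 2 ∧ t = 1)

lemma cast_ne_zero_of {p m : ℕ} (_hp : p.Prime) (h : ¬ p ∣ m) : (m : ZMod p) ≠ 0 := by
  rwa [Ne, ZMod.natCast_eq_zero_iff]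

lemma roots_card {s t a p : ℕ} (hst : ST s t) (hp : p.Prime) (hp2 : p ≠ 2) :
    ((range p).filter (fun x => ((s * x) ^ 2 + (t * a) ^ 2) % p = 0)).card ≤ 2 := by
  classical
  have : Fact p.Prime := ⟨hp⟩
  rcases ((range p).filter (fun x => ((s * x) ^ 2 + (t * a) ^ 2) % p = 0)).eq_empty_or_nonempty
    with h | ⟨x0, hx0⟩
  · rw [h]; simp
  rw [mem_filter, mem_range] at hx0
  have hs0 : (s : ZMod p) ≠ 0 := by
    apply cast_ne_zero_of hp
    intro hd
    rcases hst with ⟨rfl, -⟩ | ⟨rfl, -⟩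
    · exact hp.one_lt.ne' (Nat.dvd_one.1 hd)
    · exact hp2 ((Nat.prime_dvd_prime_iff_eq hp Nat.prime_two).1 hd)
  have hcast : ∀ x : ℕ, ((s * x) ^ 2 + (t * a) ^ 2) % p = 0 →
      ((s : ZMod p) * x) ^ 2 = - ((t : ZMod p) * a) ^ 2 := by
    intro x hx
    have h1 : (((s * x) ^ 2 + (t * a) ^ 2 : ℕ) : ZMod p) = 0 := by
      rw [ZMod.natCast_eq_zero_iff]
      exact Nat.dvd_of_mod_eq_zero hx
    push_cast at h1
    exact eq_neg_of_add_eq_zero_left h1
  have hsub : (range p).filter (fun x => ((s * x) ^ 2 + (t * a) ^ 2) % p = 0) ⊆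
      {x0, (p - x0) % p} := by
    intro x hx
    rw [mem_filter, mem_range] at hx
    rw [mem_insert, mem_singleton]
    have h1 : ((s : ZMod p) * x) ^ 2 = ((s : ZMod p) * x0) ^ 2 := by
      rw [hcast x hx.2, hcast x0 hx0.2]
    rcases sq_eq_sq_iff_eq_or_eq_neg.1 h1 with h | h
    · left
      have h2 : (x : ZMod p) = x0 := mul_left_cancel₀ hs0 h
      rw [ZMod.natCast_eq_natCast_iff'] at h2
      rwa [Nat.mod_eq_of_lt hx.1, Nat.mod_eq_of_lt hx0.1] at h2
    · right
      have h2 : (x : ZMod p) = ((p - x0 : ℕ) : ZMod p) := by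
        rw [Nat.cast_sub hx0.1.le, ZMod.natCast_self, zero_sub]
        apply mul_left_cancel₀ hs0
        rw [h]; ring
      rw [ZMod.natCast_eq_natCast_iff', Nat.mod_eq_of_lt hx.1] at h2
      exact h2
  exact (card_le_card hsub).trans card_le_two

lemma om_small {s t a p : ℕ} (hst : ST s t) (ha2 : s = 2 → a % 2 = 1) (hp : p.Prime)
    (hp3 : p ≤ 3) : om (Q s t a) p ≤ 1 := by
  classical
  have h2 := hp.two_le
  unfold om
  have hsub : (range p).filter (Q s t a p) ⊆ {0} := by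
    intro x hx
    rw [mem_filter, mem_range] at hx
    rw [mem_singleton]
    obtain ⟨hx1, hx2⟩ := hx
    unfold Q at hx2
    have hpc : p = 2 ∨ p = 3 := by omega
    rcases hpc with rfl | rfl
    · rcases hx2 with h | h
      · omega
      · rcases hst with ⟨rfl, rfl⟩ | ⟨rfl, rfl⟩
        · have hxc : x = 0 ∨ x = 1 := by omega
          rcases hxc with rfl | rfl
          · rfl
          · exfalso
            have e : (1 * 1) ^ 2 + (2 * a) ^ 2 = 1 + 2 * (2 * a ^ 2) := by ring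
            rw [e] at h
            omega
        · exfalso
          have e : (2 * x) ^ 2 + (1 * a) ^ 2 = a ^ 2 + 2 * (2 * x ^ 2) := by ring
          rw [e] at h
          have h3 : a ^ 2 % 2 = 1 := by
            rw [Nat.pow_mod, ha2 rfl]
          omega
    · have ha3 : a % 3 = 0 ∨ a % 3 = 1 ∨ a % 3 = 2 := by omega
      have hxc : x = 0 ∨ x = 1 ∨ x = 2 := by omega
      rcases hxc with rfl | rfl | rfl
      · rfl
      all_goals
        exfalso
        rcases hx2 with h | h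
        · omega
        · rcases hst with ⟨rfl, rfl⟩ | ⟨rfl, rfl⟩ <;> rcases ha3 with h3 | h3 | h3 <;>
            simp [Nat.add_mod, Nat.mul_mod, Nat.pow_mod, h3] at h
  calc _ ≤ _ := card_le_card hsub
    _ ≤ 1 := by rw [card_singleton]

lemma om_le_three {s t a p : ℕ} (hst : ST s t) (ha2 : s = 2 → a % 2 = 1) (hp : p.Prime) :
    om (Q s t a) p ≤ 3 := by
  classical
  rcases Nat.lt_or_ge 3 p with h | h
  · unfold om
    have hsub : (range p).filter (Q s t a p) ⊆
        {0} ∪ (range p).filter (fun x => ((s * x) ^ 2 + (t * a) ^ 2) % p = 0) := by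
      intro x hx
      rw [mem_filter, mem_range] at hx
      rw [mem_union, mem_singleton, mem_filter, mem_range]
      rcases hx.2 with h | h
      · left
        rwa [Nat.mod_eq_of_lt hx.1] at h
      · exact Or.inr ⟨hx.1, h⟩
    have h1 := roots_card (a := a) hst hp (by omega)
    calc _ ≤ _ := card_le_card hsub
      _ ≤ _ := card_union_le _ _
      _ ≤ 3 := by rw [card_singleton]; omega
  · exact (om_small hst ha2 hp h).trans (by norm_num)

lemma om_lt {s t a p : ℕ} (hst : ST s t) (ha2 : s = 2 → a % 2 = 1) (hp : p.Prime) :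
    om (Q s t a) p < p := by
  rcases Nat.lt_or_ge 3 p with h | h
  · exact lt_of_le_of_lt (om_le_three hst ha2 hp) h
  · exact lt_of_le_of_lt (om_small hst ha2 hp h) hp.one_lt

lemma one_le_om {s t a p : ℕ} (hp : p.Prime) : 1 ≤ om (Q s t a) p := by
  classical
  unfold om
  have hsub : ({0} : Finset ℕ) ⊆ (range p).filter (Q s t a p) := by
    intro x hx
    rw [mem_singleton] at hx
    subst hx
    rw [mem_filter, mem_range]
    exact ⟨hp.pos, Or.inl (Nat.zero_mod _)⟩
  calc 1 = ({0} : Finset ℕ).card := by rw [card_singleton]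
    _ ≤ _ := card_le_card hsub

lemma three_le_om {s t a p : ℕ} (hst : ST s t) (ha : a.Prime) (hp : p.Prime)
    (hp4 : p % 4 = 1) (hpa : p ≠ a) : 3 ≤ om (Q s t a) p := by
  classical
  have : Fact p.Prime := ⟨hp⟩
  have hp2 : p ≠ 2 := by omega
  have hs0 : (s : ZMod p) ≠ 0 := by
    apply cast_ne_zero_of hp
    intro hd
    rcases hst with ⟨rfl, -⟩ | ⟨rfl, -⟩
    · exact hp.one_lt.ne' (Nat.dvd_one.1 hd)
    · exact hp2 ((Nat.prime_dvd_prime_iff_eq hp Nat.prime_two).1 hd)
  have ht0 : (t : ZMod p) ≠ 0 := by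
    apply cast_ne_zero_of hp
    intro hd
    rcases hst with ⟨-, rfl⟩ | ⟨-, rfl⟩
    · exact hp2 ((Nat.prime_dvd_prime_iff_eq hp Nat.prime_two).1 hd)
    · exact hp.one_lt.ne' (Nat.dvd_one.1 hd)
  have ha0 : (a : ZMod p) ≠ 0 := by
    apply cast_ne_zero_of hp
    intro hd
    exact hpa ((Nat.prime_dvd_prime_iff_eq hp ha).1 hd)
  obtain ⟨i, hi⟩ : IsSquare (-1 : ZMod p) := ZMod.exists_sq_eq_neg_one_iff.2 (by omega)
  have hi0 : i ≠ 0 := by
    rintro rfl
    rw [mul_zero] at hi
    exact (neg_ne_zero.2 one_ne_zero) hi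
  set r : ZMod p := i * t * a * (s : ZMod p)⁻¹ with hr
  have hr0 : r ≠ 0 := by
    rw [hr]
    exact mul_ne_zero (mul_ne_zero (mul_ne_zero hi0 ht0) ha0) (inv_ne_zero hs0)
  have hsr : ((s : ZMod p) * r) ^ 2 + ((t : ZMod p) * a) ^ 2 = 0 := by
    have h1 : (s : ZMod p) * r = i * (t * a) := by
      rw [hr]; field_simp
    rw [h1, mul_pow, pow_two i, ← hi]
    ring
  have hQr : ∀ y : ZMod p, ((s : ZMod p) * y) ^ 2 + ((t : ZMod p) * a) ^ 2 = 0 →
      y.val ∈ (range p).filter (Q s t a p) := by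
    intro y hy
    rw [mem_filter, mem_range]
    refine ⟨ZMod.val_lt y, Or.inr ?_⟩
    apply Nat.mod_eq_zero_of_dvd
    rw [← ZMod.natCast_eq_zero_iff]
    push_cast
    rw [ZMod.natCast_zmod_val]
    exact hy
  have hne : r ≠ -r := by
    intro h
    have h2 : (2 : ZMod p) * r = 0 := by linear_combination h
    rcases mul_eq_zero.1 h2 with h3 | h3
    · have h4 : ((2 : ℕ) : ZMod p) ≠ 0 := by
        apply cast_ne_zero_of hp
        intro hd
        exact hp2 ((Nat.prime_dvd_prime_iff_eq hp Nat.prime_two).1 hd)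
      exact h4 (by exact_mod_cast h3)
    · exact hr0 h3
  have hsub : ({0, r.val, (-r).val} : Finset ℕ) ⊆ (range p).filter (Q s t a p) := by
    intro x hx
    rw [mem_insert, mem_insert, mem_singleton] at hx
    rcases hx with rfl | rfl | rfl
    · rw [mem_filter, mem_range]
      exact ⟨hp.pos, Or.inl (Nat.zero_mod _)⟩
    · exact hQr r hsr
    · apply hQr
      rw [mul_neg, neg_sq]
      exact hsr
  have hcard : ({0, r.val, (-r).val} : Finset ℕ).card = 3 := by
    rw [card_insert_of_notMem, card_pair]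
    · intro h
      exact hne (ZMod.val_injective p h)
    · rw [mem_insert, mem_singleton, not_or]
      constructor
      · intro h
        exact hr0 ((ZMod.val_eq_zero r).1 h.symm)
      · intro h
        exact (neg_ne_zero.2 hr0) ((ZMod.val_eq_zero (-r)).1 h.symm)
  unfold om
  rw [← hcard]
  exact card_le_card hsub

end Pool.Agent.MP12f8bf
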